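import Pool.Agent.Helper25_AEU.Stmt

/-!
Squad AEU, Part II, modules TYA, TYB, SLS, BRD.
-/

namespace Pool.Agent.AEU.H10

open MeasureTheory Complex Filter Topology Pool.Agent.H62T
open Pool.Agent.H16F (Sublin)

/-! ### algebra of `ip` and `dt` -/

theorem ip_add (z a b : ℂ) : ip z (a + b) = ip z a + ip z b := by
  simp only [ip, add_re, add_im]; ring

theorem ip_sub (z a b : ℂ) : ip z (a - b) = ip z a - ip z b := by
  simp only [ip, sub_re, sub_im]; ring

theorem ip_real (z a : ℂ) (t : ℝ) : ip z ((t : ℂ) * a) = t * ip z a := by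
  simp only [ip, re_ofReal_mul, im_ofReal_mul]; ring

theorem ip_comm (z w : ℂ) : ip z w = ip w z := by
  simp only [ip]; ring

theorem ip_I (z w : ℂ) : ip z (I * w) = dt w z := by
  simp only [ip, dt, mul_re, mul_im, I_re, I_im]; ring

theorem ip_self (z : ℂ) : ip z z = ‖z‖ ^ 2 := by
  rw [← Complex.normSq_eq_norm_sq, Complex.normSq_apply, ip]

theorem dt_comm (z w : ℂ) : dt z w = -dt w z := by
  simp only [dt]; ring

/-- Gram determinant -/
theorem gram (z w : ℂ) (hz : ‖z‖ = 1) (hw : ‖w‖ = 1) : dt z w ^ 2 = 1 - ip z w ^ 2 := by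
  have h1 := ip_self z
  have h2 := ip_self w
  rw [hz] at h1
  rw [hw] at h2
  simp only [ip, dt] at *
  linear_combination (w.re * w.re + w.im * w.im) * h1 + h2

theorem dt_ne (z w : ℂ) (hz : ‖z‖ = 1) (hw : ‖w‖ = 1) (h : |ip z w| < 1) : dt z w ≠ 0 := by
  intro h0
  have h1 := gram z w hz hw
  rw [h0] at h1
  have h2 : ip z w ^ 2 < 1 := by
    rw [← sq_abs]
    have := abs_nonneg (ip z w)
    nlinarith only [h, this]
  linarith only [h1, h2]

/-- continuity of `ip` -/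
theorem cont_ip (z : ℂ) : Continuous fun x => ip z x := by
  unfold ip
  fun_prop

/-! ### sliding along the sides -/

/-- small displacements from a vertex into the polygon -/
theorem slide_in {P : Finset HP} {k l : HP} {w d : ℂ} (hk : ip k.1 w = k.2) (hl : ip l.1 w = l.2)
    (hs : ∀ r ∈ P, r ≠ k → r ≠ l → ip r.1 w < r.2) (hdk : ip k.1 d ≤ 0) (hdl : ip l.1 d ≤ 0) :
    ∀ᶠ t : ℝ in 𝓝[>] 0, w + (t : ℂ) * d ∈ Cl P ∧
      ∀ r ∈ P, r ≠ k → r ≠ l → ip r.1 (w + (t : ℂ) * d) < r.2 := by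
  have h : ∀ᶠ t : ℝ in 𝓝[>] 0, ∀ r ∈ P, r ≠ k → r ≠ l → ip r.1 (w + (t : ℂ) * d) < r.2 := by
    rw [Filter.eventually_all_finset]
    intro r hr
    by_cases h1 : r ≠ k ∧ r ≠ l
    · have hc : Continuous fun t : ℝ => ip r.1 (w + (t : ℂ) * d) := (cont_ip _).comp (by fun_prop)
      have h2 : ip r.1 (w + ((0 : ℝ) : ℂ) * d) < r.2 := by
        simpa using hs r hr h1.1 h1.2
      have h3 := (hc.tendsto 0).eventually (eventually_lt_nhds h2)
      filter_upwards [h3.filter_mono nhdsWithin_le_nhds] with t ht _ _ using ht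
    · exact Eventually.of_forall fun t a b => absurd ⟨a, b⟩ h1
  filter_upwards [h, self_mem_nhdsWithin] with t ht htp
  refine ⟨fun r hr => ?_, ht⟩
  have htp' : (0 : ℝ) < t := htp
  by_cases h1 : r = k
  · rw [h1, ip_add, ip_real, hk]
    nlinarith only [hdk, htp']
  by_cases h2 : r = l
  · rw [h2, ip_add, ip_real, hl]
    nlinarith only [hdl, htp']
  exact (ht r hr h1 h2).le

/-- moving towards `v` decreases the distance to `v` -/
theorem closer {v w d : ℂ} (h : 0 < ip d (v - w)) :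
    ∀ᶠ t : ℝ in 𝓝[>] 0, ‖v - (w + (t : ℂ) * d)‖ < ‖v - w‖ := by
  have hc : Continuous fun t : ℝ => 2 * ip d (v - w) - t * ‖d‖ ^ 2 := by fun_prop
  have h2 : (0 : ℝ) < 2 * ip d (v - w) - 0 * ‖d‖ ^ 2 := by linarith
  have h3 := (hc.tendsto 0).eventually (eventually_gt_nhds h2)
  filter_upwards [h3.filter_mono nhdsWithin_le_nhds, self_mem_nhdsWithin] with t ht htp
  have htp' : (0 : ℝ) < t := htp
  apply lt_of_pow_lt_pow_left₀ 2 (norm_nonneg _)
  rw [← ip_self, ← ip_self]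
  have e1 : ip (v - (w + (t : ℂ) * d)) (v - (w + (t : ℂ) * d))
      = ip (v - w) (v - w) - t * (2 * ip d (v - w) - t * ‖d‖ ^ 2) := by
    rw [← ip_self d]
    simp only [ip, sub_re, sub_im, add_re, add_im, re_ofReal_mul, im_ofReal_mul]
    ring
  rw [e1]
  linarith only [mul_pos htp' ht]

theorem sls (hver : VerStatement) : SlsStatement := by
  intro P hP hG k l w hw v hv hvw
  obtain ⟨-, hstr, -⟩ := hver P hP hG
  have hs := hstr k l w hw
  have hk1 := hP.unit k hw.mem₁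
  have hl1 := hP.unit l hw.mem₂
  have hD : dt k.1 l.1 ≠ 0 := dt_ne _ _ hk1 hl1 (hG.lt1 k hw.mem₁ l hw.mem₂ hw.ne)
  set D := dt k.1 l.1 with hDdef
  have hDpos : 0 < D ^ 2 := by positivity
  -- directions along the sides
  set dk : ℂ := ((-D : ℝ) : ℂ) * (I * k.1) with hdk
  set dl : ℂ := ((D : ℝ) : ℂ) * (I * l.1) with hdl
  have hkk : ip k.1 dk = 0 := by rw [hdk, ip_real, ip_I]; simp only [dt]; ring
  have hlk : ip l.1 dk = -D ^ 2 := by rw [hdk, ip_real, ip_I]; ring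
  have hll : ip l.1 dl = 0 := by rw [hdl, ip_real, ip_I]; simp only [dt]; ring
  have hkl : ip k.1 dl = -D ^ 2 := by rw [hdl, ip_real, ip_I, dt_comm]; ring
  have hek : ip k.1 (v - w) ≤ 0 := by rw [ip_sub, hw.on₁]; linarith [hv k hw.mem₁]
  have hel : ip l.1 (v - w) ≤ 0 := by rw [ip_sub, hw.on₂]; linarith [hv l hw.mem₂]
  -- decomposition
  have hdec : D ^ 2 * ‖v - w‖ ^ 2 = -ip l.1 (v - w) * ip dk (v - w)
      + -ip k.1 (v - w) * ip dl (v - w) := by
    rw [← ip_self, hdk, hdl, ip_comm (((-D : ℝ) : ℂ) * (I * k.1)), ip_real,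
      ip_comm (((D : ℝ) : ℂ) * (I * l.1)), ip_real, ip_I, ip_I, hDdef]
    simp only [ip, dt]
    ring
  have hpos : 0 < D ^ 2 * ‖v - w‖ ^ 2 := by
    have : 0 < ‖v - w‖ := norm_pos_iff.mpr (sub_ne_zero.mpr hvw)
    positivity
  have hcase : 0 < ip dk (v - w) ∨ 0 < ip dl (v - w) := by
    by_contra hno
    push Not at hno
    have h1 : -ip l.1 (v - w) * ip dk (v - w) ≤ 0 :=
      mul_nonpos_of_nonneg_of_nonpos (by linarith) hno.1
    have h2 : -ip k.1 (v - w) * ip dl (v - w) ≤ 0 :=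
      mul_nonpos_of_nonneg_of_nonpos (by linarith) hno.2
    linarith
  rcases hcase with hc | hc
  · obtain ⟨t, ⟨ht1, -⟩, ht2⟩ := ((slide_in hw.on₁ hw.on₂ hs hkk.le
      (by rw [hlk]; linarith)).and (closer hc)).exists
    exact ⟨k, Or.inl rfl, _, ht1, by rw [ip_add, ip_real, hkk, hw.on₁]; ring, ht2⟩
  · obtain ⟨t, ⟨ht1, -⟩, ht2⟩ := ((slide_in hw.on₁ hw.on₂ hs
      (by rw [hkl]; linarith) hll.le).and (closer hc)).exists
    exact ⟨l, Or.inr rfl, _, ht1, by rw [ip_add, ip_real, hll, hw.on₂]; ring, ht2⟩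

/-! ### types A and B -/

theorem tya (hver : VerStatement) (hmix : MixStatement) (hhul : HulStatement)
    (hper : PerStatement) : TyaStatement := by
  intro P hP hG h i j k v w hA
  obtain ⟨hon, hstr, -, -, hvx, -, -, -, -⟩ := hver P hP hG
  obtain ⟨hvi, hwk, hne, hob, hob', hbody⟩ := hA
  have hij := hvi.ne
  have hjk := hwk.ne
  have hTri : Tri P i j k := ⟨hvi.mem₁, hvi.mem₂, hwk.mem₂, hij, hne, hjk⟩
  have hxs : ∀ e : Fin (1 + 1), (![v, w] : Fin (1 + 1) → ℂ) e ∈ Cl P := by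
    intro e
    fin_cases e
    · exact hvi.cl
    · exact hwk.cl
  obtain ⟨hfit, htouch⟩ := (hmix P).2.2 1 ![v, w] hxs
  obtain ⟨hsub, hin, -⟩ := hhul 1 ![v, w]
  have hT : touch P h = {i, j, k} := by
    ext s
    rw [hbody, htouch]
    simp only [Finset.mem_insert, Finset.mem_singleton]
    constructor
    · rintro ⟨hs, e, he⟩
      fin_cases e
      · rcases hon i j v hvi s hs he with h1 | h1
        · exact Or.inl h1
        · exact Or.inr (Or.inl h1)
      · rcases hon j k w hwk s hs he with h1 | h1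
        · exact Or.inr (Or.inl h1)
        · exact Or.inr (Or.inr h1)
    · rintro (h1 | h1 | h1)
      · exact ⟨h1 ▸ hvi.mem₁, 0, by rw [h1]; exact hvi.on₁⟩
      · exact ⟨h1 ▸ hvi.mem₂, 0, by rw [h1]; exact hvi.on₂⟩
      · exact ⟨h1 ▸ hwk.mem₂, 1, by rw [h1]; exact hwk.on₂⟩
  have hcard : ({i, j, k} : Finset HP).card = 3 := Finset.card_eq_three.mpr
    ⟨i, j, k, hij, hne, hjk, rfl⟩
  have hv := (hvx i j v hvi).1
  have hw := (hvx j k w hwk).1
  have hkv : ip k.1 v < k.2 := hstr i j v hvi k hwk.mem₂ hne.symm hjk.symm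
  have hiw : ip i.1 w < i.2 := hstr j k w hwk i hvi.mem₁ hij hne
  have hvw : v ≠ w := by
    intro he
    rw [he, hwk.on₂] at hkv
    exact lt_irrefl _ hkv
  have hlam : lam h = eA i j k := by
    rw [hbody, hper.1, eA, ← hv, ← hw]
  have hpos : 0 < eA i j k := by
    rw [eA, ← hv, ← hw]
    have : 0 < ‖v - w‖ := norm_pos_iff.mpr (sub_ne_zero.mpr hvw)
    positivity
  refine ⟨hTri, hT, ⟨by rw [hbody]; exact hsub, by rw [hbody]; exact hfit,
    by rw [hT, hcard], Or.inl ⟨v, ⟨i, j, hvi⟩, by rw [hbody]; exact hin 0⟩⟩, hv, hw, hlam, hpos, ?_⟩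
  refine ⟨hP.unit i hvi.mem₁, hP.unit j hvi.mem₂, hP.unit k hwk.mem₂, rfl, rfl, hob, hob',
    (abs_lt.mp (hG.lt1 i hvi.mem₁ j hvi.mem₂ hij)).2,
    (abs_lt.mp (hG.lt1 j hwk.mem₁ k hwk.mem₂ hjk)).2, ?_, rfl, by rwa [← hv], by rwa [← hw]⟩
  -- orientation
  have hj1 := ip_self j.1
  rw [hP.unit j hvi.mem₂] at hj1
  have e0 : ip j.1 (w - v) = 0 := by rw [ip_sub, hwk.on₁, hvi.on₂, sub_self]
  set s := ip (I * j.1) (w - v) with hs
  have e1 : ip k.1 (w - v) = s * dt j.1 k.1 + ip j.1 (w - v) * ip j.1 k.1 := by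
    rw [hs]
    simp only [ip, dt, mul_re, mul_im, I_re, I_im] at *
    linear_combination (-(k.1.re * (w - v).re + k.1.im * (w - v).im)) * hj1
  have e2 : ip i.1 (w - v) = -(s * dt i.1 j.1) + ip j.1 (w - v) * ip i.1 j.1 := by
    rw [hs]
    simp only [ip, dt, mul_re, mul_im, I_re, I_im] at *
    linear_combination (-(i.1.re * (w - v).re + i.1.im * (w - v).im)) * hj1
  rw [e0] at e1 e2
  have p1 : 0 < ip k.1 (w - v) := by rw [ip_sub, hwk.on₂]; linarith
  have p2 : ip i.1 (w - v) < 0 := by rw [ip_sub, hvi.on₁]; linarith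
  have p3 : 0 < s * dt j.1 k.1 := by linarith
  have p4 : 0 < s * dt i.1 j.1 := by linarith
  have p5 : 0 < s ^ 2 * (dt i.1 j.1 * dt j.1 k.1) := by linarith only [mul_pos p3 p4]
  have p6 : 0 ≤ s ^ 2 := sq_nonneg s
  exact (pos_iff_pos_of_mul_pos p5).mp (lt_of_le_of_ne p6 (fun h0 => by
    rw [← h0, zero_mul] at p5; exact lt_irrefl _ p5))

theorem tyb (hver : VerStatement) (hmix : MixStatement) (hhul : HulStatement)
    (hper : PerStatement) : TybStatement := by
  intro P hP hG h i j q v d hB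
  obtain ⟨hon, hstr, -, -, hvx, -, -, -, -⟩ := hver P hP hG
  obtain ⟨hvi, hqP, hd, hfoot, hinner, hbody⟩ := hB
  have hij := hvi.ne
  have hq1 := ip_self q.1
  rw [hP.unit q hqP] at hq1
  have hqv : ip q.1 v + d = q.2 := by
    have := hfoot
    rw [ip_add, ip_real, hq1] at this
    linarith
  have hiq : i ≠ q := by
    intro he
    have := hvi.on₁
    rw [he] at this
    linarith
  have hjq : j ≠ q := by
    intro he
    have := hvi.on₂
    rw [he] at this
    linarith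
  have hTri : Tri P i j q := ⟨hvi.mem₁, hvi.mem₂, hqP, hij, hiq, hjq⟩
  have hxcl : v + (d : ℂ) * q.1 ∈ Cl P := by
    intro s hs
    by_cases hsq : s = q
    · rw [hsq]; exact hfoot.le
    · exact (hinner s hs hsq).le
  have hxs : ∀ e : Fin (1 + 1), (![v, v + (d : ℂ) * q.1] : Fin (1 + 1) → ℂ) e ∈ Cl P := by
    intro e
    fin_cases e
    · exact hvi.cl
    · exact hxcl
  obtain ⟨hfit, htouch⟩ := (hmix P).2.2 1 ![v, v + (d : ℂ) * q.1] hxs
  obtain ⟨hsub, hin, -⟩ := hhul 1 ![v, v + (d : ℂ) * q.1]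
  have hT : touch P h = {i, j, q} := by
    ext s
    rw [hbody, htouch]
    simp only [Finset.mem_insert, Finset.mem_singleton]
    constructor
    · rintro ⟨hs, e, he⟩
      fin_cases e
      · rcases hon i j v hvi s hs he with h1 | h1
        · exact Or.inl h1
        · exact Or.inr (Or.inl h1)
      · by_contra hno
        push Not at hno
        have := hinner s hs hno.2.2
        change ip s.1 (v + (d : ℂ) * q.1) = s.2 at he
        linarith
    · rintro (h1 | h1 | h1)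
      · exact ⟨h1 ▸ hvi.mem₁, 0, by rw [h1]; exact hvi.on₁⟩
      · exact ⟨h1 ▸ hvi.mem₂, 0, by rw [h1]; exact hvi.on₂⟩
      · exact ⟨h1 ▸ hqP, 1, by rw [h1]; exact hfoot⟩
  have hcard : ({i, j, q} : Finset HP).card = 3 := Finset.card_eq_three.mpr
    ⟨i, j, q, hij, hiq, hjq, rfl⟩
  have hv := (hvx i j v hvi).1
  have hlam : lam h = 2 * d := by
    rw [hbody, hper.1]
    have : v - (v + (d : ℂ) * q.1) = -((d : ℂ) * q.1) := by ring
    rw [this, norm_neg, norm_mul, hP.unit q hqP, Complex.norm_real, Real.norm_eq_abs,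
      abs_of_pos hd, mul_one]
  have heB : eB i j q = 2 * d := by
    rw [eB, ← hv]
    have : q.2 - ip q.1 v = d := by linarith
    rw [this, abs_of_pos hd]
  have hia : ip i.1 q.1 < 0 := by
    have h1 := hinner i hvi.mem₁ hiq
    rw [ip_add, ip_real, hvi.on₁] at h1
    by_contra hno
    push Not at hno
    have := mul_nonneg hd.le hno
    linarith
  have hja : ip j.1 q.1 < 0 := by
    have h1 := hinner j hvi.mem₂ hjq
    rw [ip_add, ip_real, hvi.on₂] at h1
    by_contra hno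
    push Not at hno
    have := mul_nonneg hd.le hno
    linarith
  refine ⟨hTri, hT, ⟨by rw [hbody]; exact hsub, by rw [hbody]; exact hfit,
    by rw [hT, hcard], Or.inl ⟨v, ⟨i, j, hvi⟩, by rw [hbody]; exact hin 0⟩⟩, hv, hlam,
    by rw [hlam, heB], ?_⟩
  refine ⟨hP.unit i hvi.mem₁, hP.unit j hvi.mem₂, hP.unit q hqP, rfl, rfl, rfl,
    hG.lt1 i hvi.mem₁ j hvi.mem₂ hij, (abs_lt.mp (hG.lt1 i hvi.mem₁ q hqP hiq)).1,
    (abs_lt.mp (hG.lt1 j hvi.mem₂ q hqP hjq)).1, hia, hja, ?_⟩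
  rw [heB, ← hv]
  linarith only [hqv]

/-! ### BRD -/

/-- upper bound for the distance, to first order -/
theorem norm_upper {v x e : ℂ} {d : ℝ} (hd : 0 < d) (h : ‖x - v‖ = d) (t : ℝ) :
    ‖x - (v + (t : ℂ) * e)‖ ≤ d - t * (ip e (x - v) / d) + t ^ 2 * (‖e‖ ^ 2 / (2 * d)) := by
  have h1 : ‖x - (v + (t : ℂ) * e)‖ ^ 2 = d ^ 2 - 2 * t * ip e (x - v) + t ^ 2 * ‖e‖ ^ 2 := by
    rw [← h, ← ip_self, ← ip_self, ← ip_self]
    simp only [ip, sub_re, sub_im, add_re, add_im, re_ofReal_mul, im_ofReal_mul]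
    ring
  have h2 : d - t * (ip e (x - v) / d) + t ^ 2 * (‖e‖ ^ 2 / (2 * d))
      = (d ^ 2 + ‖x - (v + (t : ℂ) * e)‖ ^ 2) / (2 * d) := by
    rw [h1]
    field_simp
    ring
  rw [h2, le_div_iff₀ (by positivity)]
  linarith only [sq_nonneg (d - ‖x - (v + (t : ℂ) * e)‖)]

theorem brd (hver : VerStatement) (hmix : MixStatement) (hhul : HulStatement)
    (hper : PerStatement) : BrdStatement := by
  intro P hP hG h i j q v d hB hac
  obtain ⟨hTri, -, -, -, hlam, -, hIsB⟩ := tyb hver hmix hhul hper P hP hG h i j q v d hB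
  obtain ⟨hon, hstr, -⟩ := hver P hP hG
  obtain ⟨hvi, hqP, hd, hfoot, hinner, hbody⟩ := hB
  obtain ⟨-, -, -, hij, hiq, hjq⟩ := hTri
  have hi1 := hP.unit i hvi.mem₁
  have hj1 := hP.unit j hvi.mem₂
  have hq1 := hP.unit q hqP
  have hna := hIsB.nega
  have hnb := hIsB.negb
  have hD : dt i.1 j.1 ≠ 0 := dt_ne _ _ hi1 hj1 (hG.lt1 i hvi.mem₁ j hvi.mem₂ hij)
  set D := dt i.1 j.1 with hDdef
  set A := -ip j.1 q.1 with hAdef
  set B := -ip i.1 q.1 with hBdef
  have hA : 0 < A := by rw [hAdef]; linarith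
  have hB' : 0 < B := by rw [hBdef]; linarith
  -- directions
  set a : ℂ := ((-(D * A) : ℝ) : ℂ) * (I * i.1) with ha
  set b : ℂ := ((D * B : ℝ) : ℂ) * (I * j.1) with hb
  have hia : ip i.1 a = 0 := by rw [ha, ip_real, ip_I]; simp only [dt]; ring
  have hja : ip j.1 a = -(D ^ 2 * A) := by rw [ha, ip_real, ip_I]; ring
  have hjb : ip j.1 b = 0 := by rw [hb, ip_real, ip_I]; simp only [dt]; ring
  have hib : ip i.1 b = -(D ^ 2 * B) := by rw [hb, ip_real, ip_I, dt_comm]; ring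
  have hD2 : 0 < D ^ 2 := by positivity
  set x : ℂ := v + (d : ℂ) * q.1 with hx
  have hxv : ‖x - v‖ = d := by
    rw [hx, add_sub_cancel_left, norm_mul, hq1, Complex.norm_real, Real.norm_eq_abs,
      abs_of_pos hd, mul_one]
  have gi := ip_self i.1
  have gj := ip_self j.1
  have gq := ip_self q.1
  rw [hi1] at gi
  rw [hj1] at gj
  rw [hq1] at gq
  -- first order terms
  have hsum : ip a (x - v) / d + ip b (x - v) / d = D ^ 2 := by
    have e : x - v = (d : ℂ) * q.1 := by rw [hx]; ring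
    rw [e, ip_real, ip_real]
    have : ip a q.1 + ip b q.1 = D ^ 2 := by
      rw [ha, hb, ip_comm _ q.1, ip_comm _ q.1, ip_real, ip_real, ip_I, ip_I, hAdef, hBdef, hDdef]
      simp only [ip, dt] at *
      linear_combination ((i.1.re * j.1.im - i.1.im * j.1.re) ^ 2) * gq
    field_simp
    linarith
  have hnorm : ‖a - b‖ < D ^ 2 := by
    apply lt_of_pow_lt_pow_left₀ 2 hD2.le
    have e1 : ‖a - b‖ ^ 2 = D ^ 2 * (A ^ 2 + B ^ 2 + 2 * A * B * ip i.1 j.1) := by
      have a1 : a.re = D * A * i.1.im := by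
        rw [ha, re_ofReal_mul]; simp only [mul_re, I_re, I_im]; ring
      have a2 : a.im = -(D * A * i.1.re) := by
        rw [ha, im_ofReal_mul]; simp only [mul_im, I_re, I_im]; ring
      have b1 : b.re = -(D * B * j.1.im) := by
        rw [hb, re_ofReal_mul]; simp only [mul_re, I_re, I_im]; ring
      have b2 : b.im = D * B * j.1.re := by
        rw [hb, im_ofReal_mul]; simp only [mul_im, I_re, I_im]; ring
      rw [← ip_self]
      simp only [ip, sub_re, sub_im, a1, a2, b1, b2]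
      have gi' : i.1.re * i.1.re + i.1.im * i.1.im = 1 := by simpa [ip] using gi
      have gj' : j.1.re * j.1.re + j.1.im * j.1.im = 1 := by simpa [ip] using gj
      linear_combination (D ^ 2 * A ^ 2) * gi' + (D ^ 2 * B ^ 2) * gj'
    have e2 : D ^ 2 = A ^ 2 + B ^ 2 - 2 * A * B * ip i.1 j.1 := by
      have hp1 : i.1.re * i.1.re + i.1.im * i.1.im = 1 := by simpa [ip] using gi
      have hp2 : j.1.re * j.1.re + j.1.im * j.1.im = 1 := by simpa [ip] using gj
      have hp3 : q.1.re * q.1.re + q.1.im * q.1.im = 1 := by simpa [ip] using gq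
      rw [hAdef, hBdef, hDdef]
      simp only [ip, dt]
      have key : (i.1.re * j.1.im - i.1.im * j.1.re) ^ 2 * (q.1.re * q.1.re + q.1.im * q.1.im)
          = (j.1.re * q.1.re + j.1.im * q.1.im) ^ 2 * (i.1.re * i.1.re + i.1.im * i.1.im)
            + (i.1.re * q.1.re + i.1.im * q.1.im) ^ 2 * (j.1.re * j.1.re + j.1.im * j.1.im)
            - 2 * (j.1.re * q.1.re + j.1.im * q.1.im) * (i.1.re * q.1.re + i.1.im * q.1.im)
              * (i.1.re * j.1.re + i.1.im * j.1.im) := by ring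
      rw [hp1, hp2, hp3] at key
      linarith
    rw [e1]
    have h3 : A * B * ip i.1 j.1 < 0 := mul_neg_of_pos_of_neg (mul_pos hA hB') hac
    nlinarith only [e2, h3]
  -- small t
  have ev1 := slide_in (P := P) (d := a) hvi.on₁ hvi.on₂ (hstr i j v hvi) hia.le
    (by rw [hja]; nlinarith only [hnb])
  have ev2 := slide_in (P := P) (d := b) hvi.on₁ hvi.on₂ (hstr i j v hvi)
    (by rw [hib]; nlinarith only [hna]) hjb.le
  have ev3 : ∀ᶠ t : ℝ in 𝓝[>] 0,
      t * (‖a‖ ^ 2 / (2 * d) + ‖b‖ ^ 2 / (2 * d)) < D ^ 2 - ‖a - b‖ := by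
    have hc : Continuous fun t : ℝ => t * (‖a‖ ^ 2 / (2 * d) + ‖b‖ ^ 2 / (2 * d)) := by fun_prop
    have h2 : (0 : ℝ) * (‖a‖ ^ 2 / (2 * d) + ‖b‖ ^ 2 / (2 * d)) < D ^ 2 - ‖a - b‖ := by
      rw [zero_mul]; linarith
    exact ((hc.tendsto 0).eventually (eventually_lt_nhds h2)).filter_mono nhdsWithin_le_nhds
  obtain ⟨t, ⟨⟨⟨hta, hta'⟩, ⟨htb, htb'⟩⟩, ht3⟩, htp⟩ :=
    (((ev1.and ev2).and ev3).and self_mem_nhdsWithin).exists
  have ht0 : (0 : ℝ) < t := htp
  have hxcl : x ∈ Cl P := by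
    intro s hs
    by_cases hsq : s = q
    · rw [hsq]; exact hfoot.le
    · exact (hinner s hs hsq).le
  have hxs : ∀ e : Fin (2 + 1),
      (![v + (t : ℂ) * a, v + (t : ℂ) * b, x] : Fin (2 + 1) → ℂ) e ∈ Cl P := by
    intro e
    fin_cases e
    · exact hta
    · exact htb
    · exact hxcl
  obtain ⟨hfit, htouch⟩ := (hmix P).2.2 2 ![v + (t : ℂ) * a, v + (t : ℂ) * b, x] hxs
  obtain ⟨hsub, -⟩ := hhul 2 ![v + (t : ℂ) * a, v + (t : ℂ) * b, x]
  refine ⟨_, hsub, hfit, ?_, ?_⟩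
  · ext s
    rw [htouch]
    simp only [Finset.mem_insert, Finset.mem_singleton]
    constructor
    · rintro ⟨hs, e, he⟩
      by_contra hno
      push Not at hno
      fin_cases e
      · change ip s.1 (v + (t : ℂ) * a) = s.2 at he
        have := hta' s hs hno.1 hno.2.1
        linarith
      · change ip s.1 (v + (t : ℂ) * b) = s.2 at he
        have := htb' s hs hno.1 hno.2.1
        linarith
      · change ip s.1 x = s.2 at he
        have := hinner s hs hno.2.2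
        linarith
    · rintro (h1 | h1 | h1)
      · refine ⟨h1 ▸ hvi.mem₁, 0, ?_⟩
        change ip s.1 (v + (t : ℂ) * a) = s.2
        rw [h1, ip_add, ip_real, hia, hvi.on₁]
        ring
      · refine ⟨h1 ▸ hvi.mem₂, 1, ?_⟩
        change ip s.1 (v + (t : ℂ) * b) = s.2
        rw [h1, ip_add, ip_real, hjb, hvi.on₂]
        ring
      · refine ⟨h1 ▸ hqP, 2, ?_⟩
        change ip s.1 x = s.2
        rw [h1]
        exact hfoot
  · rw [hper.2.1, hlam]
    have n1 := norm_upper (e := a) hd hxv t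
    have n2 := norm_upper (e := b) hd hxv t
    have n3 : ‖v + (t : ℂ) * a - (v + (t : ℂ) * b)‖ = t * ‖a - b‖ := by
      have : v + (t : ℂ) * a - (v + (t : ℂ) * b) = (t : ℂ) * (a - b) := by ring
      rw [this, norm_mul, Complex.norm_real, Real.norm_eq_abs, abs_of_pos ht0]
    have n4 : ‖v + (t : ℂ) * b - x‖ = ‖x - (v + (t : ℂ) * b)‖ := norm_sub_rev _ _
    rw [n3, n4]
    have n5 : t * (ip a (x - v) / d) + t * (ip b (x - v) / d) = t * D ^ 2 := by
      rw [← mul_add, hsum]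
    have n6 := mul_lt_mul_of_pos_left ht3 ht0
    linarith only [n1, n2, n5, n6]

end Pool.Agent.AEU.H10
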